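import Pool.Agent.Run7.h932.DS.Stm

set_option autoImplicit false

namespace Run7.h381.DS

open Finset Classical Run7.h932.DS

theorem t_EXP (hF : S_FAR) (hR : S_REV) : S_EXP := by
  intro L Δ
  obtain ⟨C1, hC1⟩ := hF Δ (2 * L + 2)
  obtain ⟨C2, hC2⟩ := hR L Δ
  refine ⟨2 * C2, 2 * C1 + 1, fun n m v hm hv => ?_⟩
  have h1 : (∑ π : Equiv.Perm (HE m), (bads v π L).card) * (m - C1) ≤
      ∑ π : Equiv.Perm (HE m), ∑ i : Fin m, ∑ j : Fin m,
        (if Bad v π L i ∧ Far v π (2 * L + 2) i j then 1 else 0) := by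
    rw [Finset.sum_mul]
    refine Finset.sum_le_sum fun π _ => ?_
    unfold bads
    rw [Finset.card_filter, Finset.sum_mul]
    refine Finset.sum_le_sum fun i _ => ?_
    by_cases hb : Bad v π L i
    · simp only [hb, if_true, one_mul, true_and]
      rw [← Finset.card_filter]
      have ha := Finset.card_filter_add_card_filter_not (s := (univ : Finset (Fin m)))
        (fun j => Far v π (2 * L + 2) i j)
      have hc := (hC1 n m v π hv).2 i
      have hd : (univ : Finset (Fin m)).card = m := by simp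
      omega
    · simp [hb]
  have h2 : (∑ π : Equiv.Perm (HE m), ∑ i : Fin m, ∑ j : Fin m,
        (if Bad v π L i ∧ Far v π (2 * L + 2) i j then 1 else 0)) =
      ∑ π : Equiv.Perm (HE m), ∑ i : Fin m, ∑ j : Fin m,
        (if Bad v (sw π i j) L i ∧ Far v (sw π i j) (2 * L + 2) i j then 1 else 0) := by
    rw [Finset.sum_comm]
    rw [Finset.sum_comm (s := (univ : Finset (Equiv.Perm (HE m))))
      (f := fun π i => ∑ j : Fin m,
        (if Bad v (sw π i j) L i ∧ Far v (sw π i j) (2 * L + 2) i j then 1 else 0))]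
    refine Finset.sum_congr rfl fun i _ => ?_
    rw [Finset.sum_comm]
    rw [Finset.sum_comm (s := (univ : Finset (Equiv.Perm (HE m))))
      (f := fun π j =>
        (if Bad v (sw π i j) L i ∧ Far v (sw π i j) (2 * L + 2) i j then 1 else 0))]
    refine Finset.sum_congr rfl fun j _ => ?_
    exact (Equiv.sum_comp (Equiv.mulRight (Equiv.swap (i, false) (j, false)))
      (fun π : Equiv.Perm (HE m) =>
        if Bad v π L i ∧ Far v π (2 * L + 2) i j then 1 else 0)).symm
  have h3 : (∑ π : Equiv.Perm (HE m), ∑ i : Fin m, ∑ j : Fin m,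
        (if Bad v (sw π i j) L i ∧ Far v (sw π i j) (2 * L + 2) i j then 1 else 0)) ≤
      ∑ _π : Equiv.Perm (HE m), C2 * m := by
    refine Finset.sum_le_sum fun π _ => ?_
    have h := hC2 n m v π hv
    rw [Finset.card_filter, Fintype.sum_prod_type] at h
    exact h
  have h4 : (∑ _π : Equiv.Perm (HE m), C2 * m) = (2 * m).factorial * (C2 * m) := by
    rw [Finset.sum_const, smul_eq_mul]
    congr 1
    rw [Finset.card_univ, Fintype.card_perm]
    congr 1
    simp [HE, mul_comm]
  have h5 : (∑ π : Equiv.Perm (HE m), (bads v π L).card) * (m - C1) ≤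
      (2 * C2 * (2 * m).factorial) * (m - C1) := by
    calc _ ≤ (2 * m).factorial * (C2 * m) := by rw [← h4]; exact h1.trans (h2.le.trans h3)
      _ ≤ (2 * m).factorial * (C2 * (2 * (m - C1))) := by
          refine Nat.mul_le_mul le_rfl (Nat.mul_le_mul le_rfl ?_)
          omega
      _ = _ := by ring
  exact Nat.le_of_mul_le_mul_right h5 (by omega)

end Run7.h381.DS
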