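import Pool.Agent.Run7.h932.DS.Stm

set_option autoImplicit false

namespace Run7.h381.DS

open Finset Classical Run7.h932.DS

theorem sec_log (c t x : ℝ) (hc : 1 ≤ c) (ht : 1 ≤ t) (hx : 0 < x) (h : x ≤ c * t ^ 15) :
    Real.log x ≤ (c + 15) * t := by
  have h1 : Real.log x ≤ Real.log (c * t ^ 15) := Real.log_le_log hx h
  rw [Real.log_mul (by positivity) (by positivity), Real.log_pow] at h1
  have h2 := Real.log_le_sub_one_of_pos (show 0 < c by linarith)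
  have h3 := Real.log_le_sub_one_of_pos (show 0 < t by linarith)
  push_cast at h1
  nlinarith

theorem sec_pow (x : ℝ) (hx : 0 < x) (e : ℕ) : x ^ e = Real.exp (e * Real.log x) := by
  rw [Real.exp_nat_mul, Real.exp_log hx]

theorem sec_num (k Δ : ℕ) : ∃ n₀ : ℕ, ∀ n m : ℕ, n₀ ≤ n → n ≤ 2 * m → 2 * m ≤ Δ * n →
    1 ≤ n ∧ (Δ : ℝ) * (n : ℝ) ^ (2 / 3 : ℝ) ≤ m ∧ ∃ N : ℕ, 1 ≤ N ∧
    (3 * (2 * (m : ℝ) + 1)) ^ (k * k) * (((n * k + 1 : ℕ) : ℝ) ^ (2 * n / N) *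
      Real.exp (8 * (n * k * √(N * (4 * ((Δ : ℝ) ^ 2 + 1) / n * (2 * Real.log k)))))) *
      Real.exp (((n : ℝ) ^ (2 / 3 : ℝ)) ^ 2 / m) ≤ Real.exp ((n : ℝ) ^ (4 / 5 : ℝ)) := by
  obtain ⟨C3, hC3⟩ : ∃ C3 : ℝ, C3 = √(16 * ((Δ : ℝ) ^ 2 + 1) * Real.log k) := ⟨_, rfl⟩
  have hC3' : 0 ≤ C3 := hC3 ▸ Real.sqrt_nonneg _
  obtain ⟨C, hC⟩ : ∃ C : ℝ, C = k * k * (3 * (Δ + 1) + 15) + 2 * (k + 1 + 15) + 8 * k * C3 + 2 :=
    ⟨_, rfl⟩
  refine ⟨(⌈C⌉₊ + 2 * Δ + 1) ^ 15, fun n m hn hm hm2 => ?_⟩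
  have hn1 : 1 ≤ n := le_trans (Nat.one_le_pow _ _ (by omega)) hn
  have hn0 : (0 : ℝ) < n := by exact_mod_cast hn1
  obtain ⟨t, ht, htn, ht10, ht12⟩ : ∃ t : ℝ, 0 < t ∧ t ^ 15 = n ∧ (n : ℝ) ^ (2 / 3 : ℝ) = t ^ 10 ∧
      (n : ℝ) ^ (4 / 5 : ℝ) = t ^ 12 := by
    refine ⟨(n : ℝ) ^ (1 / 15 : ℝ), by positivity, ?_, ?_, ?_⟩
    · rw [← Real.rpow_natCast, ← Real.rpow_mul hn0.le]; norm_num
    · rw [← Real.rpow_natCast, ← Real.rpow_mul hn0.le]; norm_num
    · rw [← Real.rpow_natCast, ← Real.rpow_mul hn0.le]; norm_num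
  have htl : ((⌈C⌉₊ + 2 * Δ + 1 : ℕ) : ℝ) ≤ t := by
    rw [← pow_le_pow_iff_left₀ (by positivity) ht.le (show (15 : ℕ) ≠ 0 by norm_num), htn]
    exact_mod_cast hn
  push_cast at htl
  have hCc : C ≤ ⌈C⌉₊ := Nat.le_ceil C
  have hΔ0 : (0 : ℝ) ≤ Δ := by positivity
  have hceil0 : (0 : ℝ) ≤ (⌈C⌉₊ : ℝ) := by positivity
  have ht1 : 1 ≤ t := by linarith
  have htC : C ≤ t := by linarith
  have htΔ : 2 * (Δ : ℝ) ≤ t := by linarith
  have hmR : (n : ℝ) ≤ 2 * m := by exact_mod_cast hm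
  have hm2R : 2 * (m : ℝ) ≤ Δ * n := by exact_mod_cast hm2
  have hm0 : (0 : ℝ) < m := by linarith
  have hp5 : t ≤ t ^ 5 := le_self_pow₀ ht1 (by norm_num)
  have hp15 : t ^ 15 = t ^ 5 * t ^ 10 := by ring
  have hp10 : 0 < t ^ 10 := by positivity
  refine ⟨hn1, ?_, ⌈t ^ 5⌉₊, ?_, ?_⟩
  · rw [ht10]
    have : 2 * (Δ : ℝ) * t ^ 10 ≤ t ^ 15 := by
      rw [hp15]
      exact mul_le_mul_of_nonneg_right (by linarith) hp10.le
    rw [htn] at this
    linarith
  · exact Nat.one_le_ceil_iff.2 (by positivity)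
  · have hN1 : t ^ 5 ≤ (⌈t ^ 5⌉₊ : ℝ) := Nat.le_ceil _
    have hN2 : (⌈t ^ 5⌉₊ : ℝ) ≤ 2 * t ^ 5 := by
      have := (Nat.ceil_lt_add_one (show 0 ≤ t ^ 5 by positivity)).le
      linarith
    generalize hNN : ⌈t ^ 5⌉₊ = N at *
    have hN0 : (0 : ℝ) < N := by linarith
    -- first factor
    have hA : (3 * (2 * (m : ℝ) + 1)) ^ (k * k) ≤
        Real.exp (k * k * (3 * (Δ + 1) + 15) * t ^ 11) := by
      rw [sec_pow _ (by positivity)]
      refine Real.exp_le_exp.2 ?_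
      have h1 := sec_log (3 * (Δ + 1)) t (3 * (2 * (m : ℝ) + 1)) (by linarith) ht1 (by positivity)
        (by rw [htn]; nlinarith)
      have h2 : t ≤ t ^ 11 := le_self_pow₀ ht1 (by norm_num)
      push_cast
      have h3 : (3 * ((Δ : ℝ) + 1) + 15) * t ≤ (3 * ((Δ : ℝ) + 1) + 15) * t ^ 11 :=
        mul_le_mul_of_nonneg_left h2 (by positivity)
      have h4 : (k : ℝ) * k * Real.log (3 * (2 * (m : ℝ) + 1)) ≤
          k * k * ((3 * (Δ + 1) + 15) * t ^ 11) :=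
        mul_le_mul_of_nonneg_left (h1.trans h3) (by positivity)
      linarith
    have hB : ((n * k + 1 : ℕ) : ℝ) ^ (2 * n / N) ≤ Real.exp (2 * (k + 1 + 15) * t ^ 11) := by
      rw [sec_pow _ (by positivity)]
      refine Real.exp_le_exp.2 ?_
      have h1 := sec_log (k + 1) t ((n * k + 1 : ℕ) : ℝ) (by linarith [show (0:ℝ) ≤ k by positivity])
        ht1 (by positivity) (by
          rw [htn]; push_cast
          have : (1 : ℝ) ≤ n := by exact_mod_cast hn1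
          nlinarith)
      have h2 : ((2 * n / N : ℕ) : ℝ) ≤ 2 * t ^ 10 := by
        refine (Nat.cast_div_le).trans ?_
        rw [div_le_iff₀ hN0]
        push_cast
        rw [← htn, hp15]
        nlinarith
      have h3 : 0 ≤ (k + 1 + 15 : ℝ) * t := by positivity
      calc ((2 * n / N : ℕ) : ℝ) * Real.log ((n * k + 1 : ℕ) : ℝ)
          ≤ ((2 * n / N : ℕ) : ℝ) * ((k + 1 + 15) * t) :=
            mul_le_mul_of_nonneg_left h1 (by positivity)
        _ ≤ 2 * t ^ 10 * ((k + 1 + 15) * t) := mul_le_mul_of_nonneg_right h2 h3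
        _ = 2 * (k + 1 + 15) * t ^ 11 := by ring
    have hD : 8 * (n * k * √(N * (4 * ((Δ : ℝ) ^ 2 + 1) / n * (2 * Real.log k)))) ≤
        8 * k * C3 * t ^ 11 := by
      have hlk : 0 ≤ Real.log k := Real.log_natCast_nonneg k
      have h1 : √(N * (4 * ((Δ : ℝ) ^ 2 + 1) / n * (2 * Real.log k))) ≤ C3 / t ^ 5 := by
        rw [Real.sqrt_le_left (by positivity), div_pow, hC3,
          Real.sq_sqrt (by positivity)]
        rw [show N * (4 * ((Δ : ℝ) ^ 2 + 1) / n * (2 * Real.log k)) =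
          (N * (8 * ((Δ : ℝ) ^ 2 + 1) * Real.log k)) / n by ring]
        rw [← htn, div_le_div_iff₀ (by positivity) (by positivity)]
        have hX : 0 ≤ 8 * ((Δ : ℝ) ^ 2 + 1) * Real.log k := by positivity
        have h2 : (N : ℝ) * (8 * ((Δ : ℝ) ^ 2 + 1) * Real.log k) ≤
            2 * t ^ 5 * (8 * ((Δ : ℝ) ^ 2 + 1) * Real.log k) :=
          mul_le_mul_of_nonneg_right hN2 hX
        calc (N : ℝ) * (8 * ((Δ : ℝ) ^ 2 + 1) * Real.log k) * (t ^ 5) ^ 2 ≤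
            2 * t ^ 5 * (8 * ((Δ : ℝ) ^ 2 + 1) * Real.log k) * (t ^ 5) ^ 2 :=
              mul_le_mul_of_nonneg_right h2 (by positivity)
          _ = 16 * ((Δ : ℝ) ^ 2 + 1) * Real.log k * t ^ 15 := by ring
      have h3 : (n : ℝ) * k * √(N * (4 * ((Δ : ℝ) ^ 2 + 1) / n * (2 * Real.log k))) ≤
          n * k * (C3 / t ^ 5) := mul_le_mul_of_nonneg_left h1 (by positivity)
      have h4 : (n : ℝ) * k * (C3 / t ^ 5) = k * C3 * t ^ 10 := by
        rw [← htn, hp15]; field_simp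
      have h5 : t ^ 10 ≤ t ^ 11 := pow_le_pow_right₀ ht1 (by norm_num)
      have h6 : (k : ℝ) * C3 * t ^ 10 ≤ k * C3 * t ^ 11 :=
        mul_le_mul_of_nonneg_left h5 (by positivity)
      nlinarith
    have hE : ((n : ℝ) ^ (2 / 3 : ℝ)) ^ 2 / m ≤ 2 * t ^ 11 := by
      rw [ht10, div_le_iff₀ hm0]
      have h1 : t ^ 15 ≤ 2 * (m : ℝ) := by rw [htn]; exact hmR
      have h2 : t ^ 20 ≤ t ^ 26 := pow_le_pow_right₀ ht1 (by norm_num)
      have h3 : t ^ 11 * t ^ 15 ≤ t ^ 11 * (2 * (m : ℝ)) :=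
        mul_le_mul_of_nonneg_left h1 (by positivity)
      nlinarith
    rw [ht12]
    calc _ ≤ Real.exp (k * k * (3 * (Δ + 1) + 15) * t ^ 11) *
          (Real.exp (2 * (k + 1 + 15) * t ^ 11) * Real.exp (8 * k * C3 * t ^ 11)) *
          Real.exp (2 * t ^ 11) := by gcongr
      _ = Real.exp (C * t ^ 11) := by
          rw [← Real.exp_add, ← Real.exp_add, ← Real.exp_add, hC]
          congr 1; ring
      _ ≤ Real.exp (t ^ 12) := by
          refine Real.exp_le_exp.2 ?_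
          rw [show t ^ 12 = t * t ^ 11 by ring]
          exact mul_le_mul_of_nonneg_right htC (by positivity)

theorem sec_cs {A B : Type} [Fintype A] [Fintype B] [DecidableEq B] (f : A → B) (ρ : A → ℝ) :
    ∑ a, ∑ b, (if f a = f b then ρ a * ρ b else 0) = ∑ i, (∑ a, if f a = i then ρ a else 0) ^ 2 := by
  have h : ∀ i, (∑ a, if f a = i then ρ a else 0) ^ 2 =
      ∑ a, ∑ b, (if f a = i then ρ a else 0) * (if f b = i then ρ b else 0) := by
    intro i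
    rw [sq, Finset.sum_mul_sum]
  have h2 : ∀ a b, (∑ i, (if f a = i then ρ a else 0) * (if f b = i then ρ b else 0)) =
      if f a = f b then ρ a * ρ b else 0 := by
    intro a b
    rw [Finset.sum_eq_single (f b)]
    · by_cases hab : f a = f b <;> simp [hab]
    · intro i _ hi
      simp [Ne.symm hi]
    · intro h; exact absurd (Finset.mem_univ _) h
  calc ∑ a, ∑ b, (if f a = f b then ρ a * ρ b else 0)
      = ∑ a, ∑ b, ∑ i, (if f a = i then ρ a else 0) * (if f b = i then ρ b else 0) :=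
        Finset.sum_congr rfl fun a _ => Finset.sum_congr rfl fun b _ => (h2 a b).symm
    _ = ∑ a, ∑ i, ∑ b, (if f a = i then ρ a else 0) * (if f b = i then ρ b else 0) :=
        Finset.sum_congr rfl fun a _ => Finset.sum_comm
    _ = ∑ i, ∑ a, ∑ b, (if f a = i then ρ a else 0) * (if f b = i then ρ b else 0) :=
        Finset.sum_comm
    _ = ∑ i, (∑ a, if f a = i then ρ a else 0) ^ 2 :=
        Finset.sum_congr rfl fun i _ => (h i).symm

theorem sec_rows {A : Type} [Fintype A] {k : ℕ} (hk : 1 ≤ k) (f : A → Fin k) (ρ : A → ℝ)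
    (h1 : ∑ a, ρ a = 1) :
    1 / (k : ℝ) ≤ ∑ a, ∑ b, (if f a = f b then ρ a * ρ b else 0) := by
  rw [sec_cs f ρ]
  have h2 : ∑ i, (∑ a, if f a = i then ρ a else 0) = 1 := by
    rw [Finset.sum_comm, ← h1]
    refine Finset.sum_congr rfl fun a _ => ?_
    rw [Finset.sum_ite_eq]; simp
  have h3 := sq_sum_le_card_mul_sum_sq (s := (univ : Finset (Fin k)))
    (f := fun i => ∑ a, if f a = i then ρ a else 0)
  rw [h2] at h3
  simp only [Finset.card_univ, Fintype.card_fin] at h3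
  have hk0 : (0 : ℝ) < k := by exact_mod_cast hk
  rw [div_le_iff₀ hk0]
  linarith

theorem sec_alg {k : ℕ} (hk : 2 ≤ k) (ρ : Fin k × Fin k → ℝ) (h1 : ∑ a, ρ a = 1) :
    (∑ a, ∑ b, if a.1 ≠ b.1 ∧ a.2 ≠ b.2 then ρ a * ρ b else 0) ≤
      (1 - 1 / (k : ℝ)) ^ 2 *
        Real.exp (((k : ℝ) / (k - 1)) ^ 2 * (∑ a, ρ a ^ 2 - 1 / (k : ℝ) ^ 2)) := by
  have hr := sec_rows (by omega) (fun a : Fin k × Fin k => a.1) ρ h1
  have hc := sec_rows (by omega) (fun a : Fin k × Fin k => a.2) ρ h1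
  have hd : ∑ a : Fin k × Fin k, ρ a ^ 2 = ∑ a, ∑ b, (if a = b then ρ a * ρ b else 0) := by
    refine Finset.sum_congr rfl fun a _ => ?_
    rw [Finset.sum_ite_eq]; simp [sq]
  have ht : (1 : ℝ) = ∑ a, ∑ b, ρ a * ρ b := by
    rw [← Finset.sum_mul_sum, h1]; norm_num
  have hid : (∑ a, ∑ b, if a.1 ≠ b.1 ∧ a.2 ≠ b.2 then ρ a * ρ b else 0) =
      1 - (∑ a, ∑ b, (if a.1 = b.1 then ρ a * ρ b else 0)) -
        (∑ a, ∑ b, (if a.2 = b.2 then ρ a * ρ b else 0)) + ∑ a : Fin k × Fin k, ρ a ^ 2 := by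
    rw [hd, ht, ← Finset.sum_sub_distrib, ← Finset.sum_sub_distrib, ← Finset.sum_add_distrib]
    refine Finset.sum_congr rfl fun a _ => ?_
    rw [← Finset.sum_sub_distrib, ← Finset.sum_sub_distrib, ← Finset.sum_add_distrib]
    refine Finset.sum_congr rfl fun b _ => ?_
    by_cases e1 : a.1 = b.1 <;> by_cases e2 : a.2 = b.2
    · simp [e1, e2, Prod.ext_iff]
    · simp [e1, e2, Prod.ext_iff]
    · simp [e1, e2, Prod.ext_iff]
    · simp [e1, e2, Prod.ext_iff]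
  rw [hid]
  have hk0 : (2 : ℝ) ≤ k := by exact_mod_cast hk
  have hk1 : (k : ℝ) - 1 ≠ 0 := by linarith
  have hk2 : (k : ℝ) ≠ 0 := by linarith
  have he := Real.add_one_le_exp (((k : ℝ) / (k - 1)) ^ 2 * (∑ a, ρ a ^ 2 - 1 / (k : ℝ) ^ 2))
  have h2 : (1 - 1 / (k : ℝ)) ^ 2 *
      (((k : ℝ) / (k - 1)) ^ 2 * (∑ a, ρ a ^ 2 - 1 / (k : ℝ) ^ 2) + 1) =
      1 - 2 / k + ∑ a, ρ a ^ 2 := by
    field_simp; ring
  have h3 := mul_le_mul_of_nonneg_left he (show 0 ≤ (1 - 1 / (k : ℝ)) ^ 2 by positivity)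
  rw [h2] at h3
  refine le_trans ?_ h3
  have h4 : 2 / (k : ℝ) = 1 / k + 1 / k := by ring
  rw [h4]
  linarith

theorem sec_cnt {n m : ℕ} {B : Type} [Fintype B] [DecidableEq B] (v : HE m → Fin n) (f : Fin n → B) (a : B) :
    (cnt (fun h => f (v h)) a : ℝ) = ∑ x, if f x = a then (cnt v x : ℝ) else 0 := by
  unfold cnt
  simp_rw [Finset.card_filter]
  push_cast
  have h : ∀ x : Fin n, (if f x = a then ∑ h : HE m, (if v h = x then (1 : ℝ) else 0) else 0) =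
      ∑ h : HE m, if v h = x then (if f x = a then (1 : ℝ) else 0) else 0 := by
    intro x
    by_cases e : f x = a <;> simp [e]
  simp_rw [h]
  rw [Finset.sum_comm]
  refine Finset.sum_congr rfl fun h _ => ?_
  rw [Finset.sum_ite_eq]; simp

theorem sec_tot {X B : Type} [Fintype X] [Fintype B] (f : X → B) :
    ∑ a, (cnt f a : ℝ) = Fintype.card X := by
  unfold cnt
  simp_rw [Finset.card_filter]
  push_cast
  rw [Finset.sum_comm]
  have : ∀ x : X, (∑ a : B, if f x = a then (1 : ℝ) else 0) = 1 := by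
    intro x; rw [Finset.sum_ite_eq]; simp
  simp [this]

/-- sums of squares of counts -/
theorem sec_sq {n m : ℕ} {B : Type} [Fintype B] [DecidableEq B] (v : HE m → Fin n) (f : Fin n → B) :
    ∑ a, (cnt (fun h => f (v h)) a : ℝ) ^ 2 =
      ∑ x, ∑ y, if f x = f y then (cnt v x : ℝ) * cnt v y else 0 := by
  rw [sec_cs f (fun x => (cnt v x : ℝ))]
  refine Finset.sum_congr rfl fun a _ => ?_
  rw [sec_cnt v f a]

theorem sec_nb {k m : ℕ} (hk : 1 ≤ k) (D : Fin k → ℝ) (W : ℝ) (hD : ∑ a, D a = 2 * m)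
    (h : ∀ a, |D a - 2 * m / k| ≤ W) : ∑ a, D a ^ 2 ≤ k * W ^ 2 + 4 * m ^ 2 / k := by
  have hk0 : (0 : ℝ) < k := by exact_mod_cast hk
  have h1 : ∑ a, D a ^ 2 = ∑ a, (D a - 2 * m / k) ^ 2 + 4 * m ^ 2 / k := by
    have h2 : ∀ a, (D a - 2 * m / k) ^ 2 = D a ^ 2 - (2 * (2 * m / k)) * D a + (2 * m / k) ^ 2 := by
      intro a; ring
    simp_rw [h2]
    rw [Finset.sum_add_distrib, Finset.sum_sub_distrib, ← Finset.mul_sum, hD]
    simp only [Finset.sum_const, Finset.card_univ, Fintype.card_fin, nsmul_eq_mul]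
    field_simp
    ring
  rw [h1]
  have h3 : ∑ a, (D a - 2 * m / k) ^ 2 ≤ ∑ a : Fin k, W ^ 2 := by
    refine Finset.sum_le_sum fun a _ => ?_
    exact sq_le_sq' (abs_le.1 (h a)).1 (abs_le.1 (h a)).2
  simp only [Finset.sum_const, Finset.card_univ, Fintype.card_fin, nsmul_eq_mul] at h3
  linarith

theorem t_SEC (hUB : S_UB) (hMF : Run7.h932.RG.S_MF) : S_SEC := by
  intro k Δ hk hΔ
  obtain ⟨n₀, hn₀⟩ := sec_num k Δ
  refine ⟨n₀, fun n m hn hm v hv σ hσ => ?_⟩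
  have hkR : (3000 : ℝ) ≤ k := by exact_mod_cast hk
  have hk0 : (0 : ℝ) < k := by linarith
  have hk1 : (0 : ℝ) < k - 1 := by linarith
  have hsum : ∑ x, (cnt v x : ℝ) = 2 * m := by
    rw [sec_tot]; simp [Fintype.card_prod]; ring
  have hvR : ∀ x, (cnt v x : ℝ) ≤ Δ := fun x => by exact_mod_cast hv x
  have hmΔ : 2 * m ≤ Δ * n := by
    have : (2 * (m : ℝ)) ≤ Δ * n := by
      rw [← hsum]
      calc ∑ x, (cnt v x : ℝ) ≤ ∑ x : Fin n, (Δ : ℝ) := Finset.sum_le_sum fun x _ => hvR x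
        _ = Δ * n := by simp; ring
    exact_mod_cast this
  obtain ⟨hn1, hW, N, hN, hnum⟩ := hn₀ n m hn hm hmΔ
  have hn0 : (0 : ℝ) < n := by exact_mod_cast hn1
  have hmn : (n : ℝ) ≤ 2 * m := by exact_mod_cast hm
  have hm0 : (0 : ℝ) < m := by linarith
  have hm1 : 1 ≤ m := by omega
  have hΔ0 : (0 : ℝ) ≤ Δ := by positivity
  obtain ⟨W, hWW⟩ : ∃ W : ℝ, W = (n : ℝ) ^ (2 / 3 : ℝ) := ⟨_, rfl⟩
  rw [← hWW] at hW hnum hσ
  have hW0 : 0 ≤ W := by rw [hWW]; positivity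
  obtain ⟨c, hc⟩ : ∃ c : ℝ, c = ((k : ℝ) / (k - 1)) ^ 2 := ⟨_, rfl⟩
  rw [← hc] at hΔ
  have hc0 : 0 ≤ c := by rw [hc]; positivity
  have hc4 : c ≤ 4 := by
    have h1 : (k : ℝ) / (k - 1) ≤ 2 := by rw [div_le_iff₀ hk1]; linarith
    have h2 : 0 ≤ (k : ℝ) / (k - 1) := by positivity
    rw [hc]; nlinarith
  obtain ⟨w, hw⟩ : ∃ w : Fin n → Fin n → ℝ, w = fun x y =>
      if σ x = σ y then c * (cnt v x * cnt v y) / (2 * m) else 0 := ⟨_, rfl⟩
  obtain ⟨E, hE⟩ : ∃ E : (Fin n → Fin k) → ℝ, E = fun τ =>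
      Real.exp (1 / 2 * ∑ x, ∑ y, if τ x = τ y then w x y else 0) := ⟨_, rfl⟩
  have hτ : ∀ τ : Fin n → Fin k,
      ((univ.filter fun π : Equiv.Perm (HE m) => Prp v π σ ∧ Prp v π τ).card : ℝ) ≤
      ((2 * m).factorial : ℝ) * (3 * (2 * (m : ℝ) + 1)) ^ (k * k) *
        ((1 - 1 / (k : ℝ)) ^ (2 * m) * (E τ * Real.exp (-(m * c / k ^ 2)))) := by
    intro τ
    have h1 := hUB (Fin k × Fin k) m (fun h => (σ (v h), τ (v h)))
      (fun a b => a.1 ≠ b.1 ∧ a.2 ≠ b.2) hm1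
    obtain ⟨ρ, hρ⟩ : ∃ ρ : Fin k × Fin k → ℝ, ρ = fun a =>
      (cnt (fun h => (σ (v h), τ (v h))) a : ℝ) / (2 * m) := ⟨_, rfl⟩
    have hρ1 : ∑ a, ρ a = 1 := by
      rw [hρ]
      rw [← Finset.sum_div, sec_tot]
      simp only [Fintype.card_prod, Fintype.card_fin, Fintype.card_bool]
      push_cast
      rw [div_eq_one_iff_eq (by positivity)]; ring
    have hρ0 : ∀ a, 0 ≤ ρ a := by intro a; rw [hρ]; positivity
    have h2 := sec_alg (by omega) ρ hρ1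
    rw [← hc] at h2
    have h3 : ((univ.filter fun π : Equiv.Perm (HE m) => Prp v π σ ∧ Prp v π τ).card : ℝ) ≤
        ((2 * m).factorial : ℝ) * (3 * (2 * (m : ℝ) + 1)) ^ (k * k) *
        (∑ a, ∑ b, if a.1 ≠ b.1 ∧ a.2 ≠ b.2 then ρ a * ρ b else 0) ^ m := by
      refine le_trans ?_ (h1.trans (le_of_eq ?_))
      · norm_cast
        refine Finset.card_le_card fun π hπ => ?_
        simp only [Finset.mem_filter, Finset.mem_univ, true_and] at hπ ⊢
        exact fun j => ⟨hπ.1 j, hπ.2 j⟩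
      · rw [Fintype.card_prod, Fintype.card_fin]
        congr 2
        refine Finset.sum_congr rfl fun a _ => Finset.sum_congr rfl fun b _ => ?_
        rw [hρ]
        by_cases hR : a.1 ≠ b.1 ∧ a.2 ≠ b.2
        · rw [if_pos hR, if_pos hR]
        · rw [if_neg hR, if_neg hR]
    have hq : m * (c * ∑ a, ρ a ^ 2) = 1 / 2 * ∑ x, ∑ y, if τ x = τ y then w x y else 0 := by
      have e1 : ∑ a, ρ a ^ 2 =
          (∑ a, (cnt (fun h => (σ (v h), τ (v h))) a : ℝ) ^ 2) / (2 * m) ^ 2 := by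
        rw [Finset.sum_div]
        refine Finset.sum_congr rfl fun a _ => ?_
        rw [hρ, div_pow]
      have e2 : (∑ x, ∑ y, if τ x = τ y then w x y else 0) =
          c / (2 * m) * ∑ x, ∑ y, if (σ x, τ x) = (σ y, τ y) then
            (cnt v x : ℝ) * cnt v y else 0 := by
        rw [Finset.mul_sum]
        refine Finset.sum_congr rfl fun x _ => ?_
        rw [Finset.mul_sum]
        refine Finset.sum_congr rfl fun y _ => ?_
        rw [hw]
        by_cases a1 : σ x = σ y <;> by_cases a2 : τ x = τ y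
        · simp [a1, a2]; ring
        · simp [a1, a2]
        · simp [a1, a2]
        · simp [a1, a2]
      rw [e1, sec_sq v (fun x => (σ x, τ x)), e2]
      generalize (∑ x, ∑ y, if (σ x, τ x) = (σ y, τ y) then
            (cnt v x : ℝ) * cnt v y else 0) = S
      field_simp
    refine h3.trans (mul_le_mul_of_nonneg_left ?_ (by positivity))
    have h4 : 0 ≤ ∑ a, ∑ b, if a.1 ≠ b.1 ∧ a.2 ≠ b.2 then ρ a * ρ b else 0 :=
      Finset.sum_nonneg fun a _ => Finset.sum_nonneg fun b _ => by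
        split_ifs
        · exact mul_nonneg (hρ0 a) (hρ0 b)
        · exact le_refl 0
    refine (pow_le_pow_left₀ h4 h2 m).trans (le_of_eq ?_)
    rw [mul_pow, ← pow_mul, ← Real.exp_nat_mul, hE, ← Real.exp_add]
    congr 2
    rw [← hq]
    ring
  have hmf := hMF n k N w (4 * ((Δ : ℝ) ^ 2 + 1) / n) hn1 hk hN (by positivity) (by
      intro x y; rw [hw]; simp only; split_ifs <;> positivity) (by
      intro x y; rw [hw]; simp only
      by_cases e : σ x = σ y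
      · simp [e, mul_comm]
      · simp [e, Ne.symm e]) (by
      intro x y; rw [hw]; simp only
      split_ifs
      · rw [div_le_div_iff₀ (by positivity) hn0]
        have a1 : (cnt v x : ℝ) * cnt v y ≤ Δ * Δ :=
          mul_le_mul (hvR x) (hvR y) (by positivity) hΔ0
        have a2 : c * ((cnt v x : ℝ) * cnt v y) ≤ 4 * (Δ ^ 2 + 1) := by
          calc c * ((cnt v x : ℝ) * cnt v y) ≤ 4 * (Δ * Δ) :=
                mul_le_mul hc4 a1 (by positivity) (by norm_num)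
            _ ≤ 4 * ((Δ : ℝ) ^ 2 + 1) := by nlinarith
        exact mul_le_mul a2 hmn hn0.le (by positivity)
      · positivity) (by
      intro x
      have a1 : ∑ y, w x y = c * cnt v x / (2 * m) * (cnt (fun h => σ (v h)) (σ x) : ℝ) := by
        rw [sec_cnt v σ (σ x), Finset.mul_sum]
        refine Finset.sum_congr rfl fun y _ => ?_
        rw [hw]
        by_cases e : σ x = σ y
        · simp [e]; ring
        · simp [e, Ne.symm e]
      rw [a1]
      have a2 := (abs_le.1 (hσ (σ x))).2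
      have a3 : (cnt (fun h => σ (v h)) (σ x) : ℝ) ≤ 2 * m / k + W := by linarith
      have a4 : c * (cnt v x : ℝ) / (2 * m) ≤ c * Δ / (2 * m) := by
        gcongr; exact hv x
      calc c * (cnt v x : ℝ) / (2 * m) * (cnt (fun h => σ (v h)) (σ x) : ℝ)
          ≤ c * Δ / (2 * m) * (2 * m / k + W) :=
            mul_le_mul a4 a3 (by positivity) (by positivity)
        _ = c * (Δ / k + (Δ * W) / (2 * m)) := by field_simp
        _ ≤ c * (Δ / k + 1 / 2) := by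
            refine mul_le_mul_of_nonneg_left ?_ hc0
            have : (Δ : ℝ) * W / (2 * m) ≤ 1 / 2 := by
              rw [div_le_div_iff₀ (by positivity) (by norm_num)]; linarith
            linarith
        _ ≤ _ := hΔ)
  have hww : (∑ x, ∑ y, w x y) / (2 * k) - m * c / k ^ 2 ≤ W ^ 2 / m := by
    have a1 : ∑ x, ∑ y, w x y = c / (2 * m) * ∑ a, (cnt (fun h => σ (v h)) a : ℝ) ^ 2 := by
      rw [sec_sq v σ, Finset.mul_sum]
      refine Finset.sum_congr rfl fun x _ => ?_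
      rw [Finset.mul_sum]
      refine Finset.sum_congr rfl fun y _ => ?_
      rw [hw]
      by_cases e : σ x = σ y
      · simp [e]; ring
      · simp [e]
    have a2 := sec_nb (by omega) (fun a => (cnt (fun h => σ (v h)) a : ℝ)) W (m := m) (by
      rw [sec_tot]; simp [Fintype.card_prod]; ring) hσ
    have a3 : (∑ x, ∑ y, w x y) / (2 * k) ≤
        c / (2 * m) * (k * W ^ 2 + 4 * m ^ 2 / k) / (2 * k) := by
      rw [a1]; gcongr
    have a4 : c / (2 * m) * (k * W ^ 2 + 4 * m ^ 2 / k) / (2 * k) =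
        c * W ^ 2 / (4 * m) + m * c / k ^ 2 := by
      field_simp; ring
    have a5 : c * W ^ 2 / (4 * m) ≤ W ^ 2 / m := by
      rw [div_le_div_iff₀ (by positivity) hm0]
      have : c * (W ^ 2 * m) ≤ 4 * (W ^ 2 * m) :=
        mul_le_mul_of_nonneg_right hc4 (by positivity)
      nlinarith
    linarith
  have hEs : ∑ τ : Fin n → Fin k, E τ ≤ ((n * k + 1 : ℕ) : ℝ) ^ (2 * n / N) *
      Real.exp (8 * (n * k * √(N * (4 * ((Δ : ℝ) ^ 2 + 1) / n * (2 * Real.log k))))) *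
      ((k : ℝ) ^ n * Real.exp ((∑ x, ∑ y, w x y) / (2 * k))) := by
    rw [hE]; exact hmf
  generalize ((n * k + 1 : ℕ) : ℝ) ^ (2 * n / N) *
      Real.exp (8 * (n * k * √(N * (4 * ((Δ : ℝ) ^ 2 + 1) / n * (2 * Real.log k))))) = X at *
  have hX0 : 0 ≤ X := by
    by_contra hneg
    have a1 : 0 ≤ ∑ τ : Fin n → Fin k, E τ := Finset.sum_nonneg fun τ _ => by
      rw [hE]; positivity
    have a2 : X * ((k : ℝ) ^ n * Real.exp ((∑ x, ∑ y, w x y) / (2 * k))) < 0 :=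
      mul_neg_of_neg_of_pos (not_le.1 hneg) (by positivity)
    linarith
  have hkk : 0 ≤ 1 - 1 / (k : ℝ) := by
    rw [sub_nonneg, div_le_one hk0]; linarith
  calc _ ≤ ∑ τ : Fin n → Fin k,
        ((2 * m).factorial : ℝ) * (3 * (2 * (m : ℝ) + 1)) ^ (k * k) *
        ((1 - 1 / (k : ℝ)) ^ (2 * m) * (E τ * Real.exp (-(m * c / k ^ 2)))) :=
        Finset.sum_le_sum fun τ _ => hτ τ
    _ = ((2 * m).factorial : ℝ) * (3 * (2 * (m : ℝ) + 1)) ^ (k * k) *
        ((1 - 1 / (k : ℝ)) ^ (2 * m) * ((∑ τ : Fin n → Fin k, E τ) *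
          Real.exp (-(m * c / k ^ 2)))) := by
        rw [Finset.sum_mul, Finset.mul_sum, Finset.mul_sum]
    _ ≤ ((2 * m).factorial : ℝ) * (3 * (2 * (m : ℝ) + 1)) ^ (k * k) *
        ((1 - 1 / (k : ℝ)) ^ (2 * m) * ((X * ((k : ℝ) ^ n *
          Real.exp ((∑ x, ∑ y, w x y) / (2 * k)))) * Real.exp (-(m * c / k ^ 2)))) := by
        gcongr
    _ = ((2 * m).factorial : ℝ) * (1 - 1 / (k : ℝ)) ^ (2 * m) * (k : ℝ) ^ n *
        ((3 * (2 * (m : ℝ) + 1)) ^ (k * k) * X *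
          Real.exp ((∑ x, ∑ y, w x y) / (2 * k) - m * c / k ^ 2)) := by
        have hsub : Real.exp ((∑ x, ∑ y, w x y) / (2 * k) - m * c / k ^ 2) =
            Real.exp ((∑ x, ∑ y, w x y) / (2 * k)) * Real.exp (-(m * c / k ^ 2)) := by
          rw [← Real.exp_add, ← sub_eq_add_neg]
        rw [hsub]; ring
    _ ≤ ((2 * m).factorial : ℝ) * (1 - 1 / (k : ℝ)) ^ (2 * m) * (k : ℝ) ^ n *
        ((3 * (2 * (m : ℝ) + 1)) ^ (k * k) * X * Real.exp (W ^ 2 / m)) := by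
        gcongr
    _ ≤ _ := by
        refine mul_le_mul_of_nonneg_left ?_ (by positivity)
        exact hnum

end Run7.h381.DS
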